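import Pool.Agent.H399R3.Wall6

set_option autoImplicit false

/-! For every `p ∈ (0,1)` and every `θ > 0`, the lower bound with `θ` times the one-dimensional
wall cost fails for the energies `F^p_ε` on the unit disc. -/

namespace Pool.Agent.Results.MP_fc6706_an.WallCostFails

open Set Filter Topology MeasureTheory
open scoped NNReal ENNReal
open Pool.Agent.H399R3.Wall (Plane)

/-- test functions: smooth, with compact support contained in `Ω` -/
def IsTest (Ω : Set Plane) (φ : Plane → ℝ) : Prop :=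
  ContDiff ℝ (⊤ : ℕ∞) φ ∧ HasCompactSupport φ ∧ tsupport φ ⊆ Ω

/-- the `k`-th partial derivative -/
noncomputable def pd (k : Fin 2) (φ : Plane → ℝ) (x : Plane) : ℝ :=
  fderiv ℝ φ x (EuclideanSpace.single k (1 : ℝ))

/-- `u ∈ H¹(Ω; ℝ²)` with weak gradient `G i k = ∂_k u_i` -/
def IsH1 (Ω : Set Plane) (u : Plane → Plane) (G : Fin 2 → Fin 2 → Plane → ℝ) : Prop :=
  MemLp u 2 (volume.restrict Ω) ∧ (∀ i k, MemLp (G i k) 2 (volume.restrict Ω)) ∧
  ∀ i k φ, IsTest Ω φ → ∫ x in Ω, u x i * pd k φ x = - ∫ x in Ω, G i k x * φ x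

/-- `div u = 0` in `Ω` in the sense of distributions -/
def IsDivFree (Ω : Set Plane) (u : Plane → Plane) : Prop :=
  ∀ φ, IsTest Ω φ → ∫ x in Ω, (u x 0 * pd 0 φ x + u x 1 * pd 1 φ x) = 0

/-- the energy `F^p_ε(u)` of a field with weak gradient `G` -/
noncomputable def energy (Ω : Set Plane) (p ε : ℝ) (u : Plane → Plane)
    (G : Fin 2 → Fin 2 → Plane → ℝ) : ℝ≥0∞ :=
  ∫⁻ x in Ω, ENNReal.ofReal (ε⁻¹ * |‖u x‖ ^ 2 - 1| ^ p + ε * ∑ i, ∑ k, G i k x ^ 2)

/-- `u ∈ BV(Ω; ℝ²)` -/
def IsBV (Ω : Set Plane) (u : Plane → Plane) : Prop :=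
  IntegrableOn u Ω ∧ ∃ C : ℝ, ∀ i k φ, IsTest Ω φ → (∀ x, |φ x| ≤ 1) →
    |∫ x in Ω, u x i * pd k φ x| ≤ C

/-- half ball in direction `ν` -/
def halfBall (x ν : Plane) (r : ℝ) : Set Plane := {y | y ∈ Metric.ball x r ∧ 0 < inner ℝ (y - x) ν}

/-- `x` is an approximate jump point of `u` with one-sided values `a`, `b` and normal `ν` -/
def IsJump (u : Plane → Plane) (x a b ν : Plane) : Prop :=
  a ≠ b ∧ ‖ν‖ = 1 ∧
  Tendsto (fun r : ℝ => ⨍⁻ y in halfBall x ν r, ‖u y - a‖ₑ ∂volume) (𝓝[>] 0) (𝓝 0) ∧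
  Tendsto (fun r : ℝ => ⨍⁻ y in halfBall x (-ν) r, ‖u y - b‖ₑ ∂volume) (𝓝[>] 0) (𝓝 0)

/-- the jump set of `u` in `Ω` -/
def jumpSet (Ω : Set Plane) (u : Plane → Plane) : Set Plane :=
  {x | x ∈ Ω ∧ ∃ a b ν, IsJump u x a b ν}

/-- the one-dimensional wall cost `K_p(z)` -/
noncomputable def wallCost (p z : ℝ) : ℝ :=
  2 * ∫ y in (-√(1 - z ^ 2))..√(1 - z ^ 2), (1 - z ^ 2 - y ^ 2) ^ (p / 2)

/-- the open unit disc -/
def unitDisc : Set Plane := Metric.ball 0 1

open Pool.Agent.H399R3.Wall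

lemma unitDisc_meas : MeasurableSet unitDisc := Metric.isOpen_ball.measurableSet

lemma fin_disc : IsFiniteMeasure ((volume : Measure Plane).restrict unitDisc) :=
  ⟨by rw [Measure.restrict_apply_univ]; exact measure_ball_lt_top⟩

lemma pd_off {Ω : Set Plane} {φ : Plane → ℝ} (h : IsTest Ω φ) (k : Fin 2) {x : Plane} (hx : x ∉ Ω) :
    pd k φ x = 0 := by
  have h1 : x ∉ tsupport φ := fun h' => hx (h.2.2 h')
  have h2 : φ =ᶠ[𝓝 x] 0 := notMem_tsupport_iff_eventuallyEq.1 h1
  unfold pd
  rw [h2.fderiv_eq]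
  simp

lemma phi_off {Ω : Set Plane} {φ : Plane → ℝ} (h : IsTest Ω φ) {x : Plane} (hx : x ∉ Ω) :
    φ x = 0 := by
  have h1 : x ∉ tsupport φ := fun h' => hx (h.2.2 h')
  exact image_eq_zero_of_notMem_tsupport h1

section
variable {a P ε : ℝ}

lemma ibp (ha : 0 ≤ a) (hP : 1 ≤ P) (hε : 0 < ε) (i k : Fin 2) {φ : Plane → ℝ}
    (h : IsTest unitDisc φ) :
    ∫ x in unitDisc, ve a P ε x i * pd k φ x = - ∫ x in unitDisc, GG a P ε i k x * φ x := by
  rw [setIntegral_eq_integral_of_forall_compl_eq_zero (fun x hx => by rw [pd_off h k hx, mul_zero]),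
    setIntegral_eq_integral_of_forall_compl_eq_zero (fun x hx => by rw [phi_off h hx, mul_zero])]
  exact GG_ibp ha hP hε i k h.1 h.2.1

lemma pd_cont {Ω : Set Plane} {φ : Plane → ℝ} (h : IsTest Ω φ) (k : Fin 2) : Continuous (pd k φ) := by
  unfold pd
  exact (h.1.continuous_fderiv (by simp)).clm_apply continuous_const

lemma pd_bdd {Ω : Set Plane} {φ : Plane → ℝ} (h : IsTest Ω φ) (k : Fin 2) :
    ∃ C, ∀ x, |pd k φ x| ≤ C := by
  have h1 : HasCompactSupport (pd k φ) := by
    have h2 := h.2.1.fderiv (𝕜 := ℝ)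
    exact h2.comp_left (g := fun L : Plane →L[ℝ] ℝ => L (EuclideanSpace.single k (1:ℝ))) (by simp)
  obtain ⟨C, hC⟩ := (pd_cont h k).bounded_above_of_compact_support h1
  exact ⟨C, fun x => by simpa using hC x⟩

lemma ve_bound (ha : 0 < a) (ha1 : a ≤ 1) (hP : 1 ≤ P) (haP : a * P ≤ 1 / 2) (x : Plane) :
    ‖ve a P ε x‖ ≤ 2 := by
  have h := Uv_bad ha1 ha.le hP haP (ε⁻¹ • x)
  have h1 : 4 * P * a ^ 2 ≤ 3 := by nlinarith
  have h2 := (abs_le.1 h).2
  have h3 : ‖ve a P ε x‖ ^ 2 ≤ 4 := by
    unfold ve; linarith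
  nlinarith [norm_nonneg (ve a P ε x)]

lemma wal_norm (ha : 0 < a) (ha1 : a ≤ 1) (x : Plane) : ‖wal a x‖ = 1 := by
  have h := wal_norm_sq ha1 ha.le x
  have h0 := norm_nonneg (wal a x)
  nlinarith

lemma wal_meas : Measurable (wal a) := by
  unfold wal
  exact Measurable.ite (measurableSet_lt measurable_const (coord_cont 0).measurable)
    measurable_const measurable_const

lemma isH1 (ha : 0 < a) (ha1 : a ≤ 1) (hP : 1 ≤ P) (haP : a * P ≤ 1 / 2) (hε : 0 < ε) :
    IsH1 unitDisc (ve a P ε) (GG a P ε) := by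
  have := fin_disc
  refine ⟨?_, ?_, ?_⟩
  · apply MemLp.of_bound (ve_cont ha.le hP hε).aestronglyMeasurable 2
    exact Eventually.of_forall (fun x => ve_bound ha ha1 hP haP x)
  · intro i k
    apply MemLp.of_bound (GG_meas ha.le hP hε i k).aestronglyMeasurable (MM a P / ε)
    exact Eventually.of_forall (fun x => by rw [Real.norm_eq_abs]; exact GG_abs ha.le hP hε i k x)
  · intro i k φ h
    exact ibp ha.le hP hε i k h

lemma coord_int {u : Plane → Plane} (hu : AEStronglyMeasurable u (volume.restrict unitDisc)) {C : ℝ}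
    (hC : ∀ x, ‖u x‖ ≤ C) {φ : Plane → ℝ} (h : IsTest unitDisc φ) (i k : Fin 2) :
    Integrable (fun x => u x i * pd k φ x) (volume.restrict unitDisc) := by
  have := fin_disc
  obtain ⟨D, hD⟩ := pd_bdd h k
  have hm : AEStronglyMeasurable (fun x => u x i) (volume.restrict unitDisc) :=
    (coord_cont i).comp_aestronglyMeasurable hu
  apply Integrable.of_bound (hm.mul (pd_cont h k).aestronglyMeasurable) (C * D)
  refine Eventually.of_forall (fun x => ?_)
  rw [Pi.mul_apply, norm_mul, Real.norm_eq_abs, Real.norm_eq_abs]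
  have h1 := coord_abs (u x) i
  have h2 := hC x
  have h3 := hD x
  have h4 := abs_nonneg (u x i)
  exact mul_le_mul (h1.trans h2) h3 (abs_nonneg _) (h4.trans (h1.trans h2))

lemma divFree (ha : 0 < a) (ha1 : a ≤ 1) (hP : 1 ≤ P) (haP : a * P ≤ 1 / 2) (hε : 0 < ε) :
    IsDivFree unitDisc (ve a P ε) := by
  have := fin_disc
  intro φ h
  have hm := (ve_cont ha.le hP hε).aestronglyMeasurable (μ := volume.restrict unitDisc)
  rw [integral_add (coord_int hm (fun x => ve_bound ha ha1 hP haP x) h 0 0)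
    (coord_int hm (fun x => ve_bound ha ha1 hP haP x) h 1 1), ibp ha.le hP hε 0 0 h,
    ibp ha.le hP hε 1 1 h, ← neg_add]
  have hi : ∀ i k, Integrable (fun x => GG a P ε i k x * φ x) (volume.restrict unitDisc) := by
    intro i k
    obtain ⟨D, hD⟩ := h.1.continuous.bounded_above_of_compact_support h.2.1
    apply Integrable.of_bound ((GG_meas ha.le hP hε i k).aestronglyMeasurable.mul
      h.1.continuous.aestronglyMeasurable) (MM a P / ε * D)
    refine Eventually.of_forall (fun x => ?_)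
    rw [Pi.mul_apply, norm_mul, Real.norm_eq_abs]
    have h1 := GG_abs ha.le hP hε i k x
    exact mul_le_mul h1 (hD x) (norm_nonneg _) ((abs_nonneg _).trans h1)
  rw [← integral_add (hi 0 0) (hi 1 1), neg_eq_zero]
  apply integral_eq_zero_of_ae
  have h2 : ∀ᵐ x ∂(volume.restrict unitDisc), GG a P ε 0 0 x + GG a P ε 1 1 x = 0 :=
    ae_restrict_of_ae (GG_div ha.le hP hε)
  filter_upwards [h2] with x hx
  simp only [Pi.zero_apply]
  rw [← add_mul, hx, zero_mul]

lemma diff_le (ha : 0 < a) (ha1 : a ≤ 1) (hP : 1 ≤ P) (haP : a * P ≤ 1 / 2) (hε : 0 < ε) :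
    ∫⁻ x in unitDisc, ‖ve a P ε x - wal a x‖ₑ ≤ ENNReal.ofReal (36 * a * P * ε) := by
  have hP0 : 0 < P := by linarith
  calc ∫⁻ x in unitDisc, ‖ve a P ε x - wal a x‖ₑ
      ≤ ∫⁻ x in unitDisc, (strip (3 * a * P * ε)).indicator (fun _ => (3 : ℝ≥0∞)) x := by
        apply lintegral_mono
        intro x
        by_cases hx : x ∈ strip (3 * a * P * ε)
        · simp only [indicator_of_mem hx]
          rw [← ofReal_norm]
          have h1 := ve_bound (ε := ε) ha ha1 hP haP x
          have h2 := wal_norm ha ha1 x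
          have h3 := norm_sub_le (ve a P ε x) (wal a x)
          calc ENNReal.ofReal ‖ve a P ε x - wal a x‖ ≤ ENNReal.ofReal 3 :=
                ENNReal.ofReal_le_ofReal (by linarith)
            _ = 3 := by norm_num
        · have hx' : 3 * a * P * ε ≤ |x 0| := by
            have : ¬ |x 0| ≤ 3 * a * P * ε := hx
            push Not at this
            exact this.le
          simp only [indicator_of_notMem hx]
          rw [outer_eq ha hP hε hx']
          simp
    _ = 3 * volume (strip (3 * a * P * ε) ∩ unitDisc) := by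
        rw [lintegral_indicator_const (strip_meas _), Measure.restrict_apply (strip_meas _)]
    _ ≤ 3 * ENNReal.ofReal (4 * (3 * a * P * ε)) := by
        gcongr
        exact vol_strip (by positivity)
    _ = _ := by
        rw [show (3 : ℝ≥0∞) = ENNReal.ofReal 3 by norm_num, ← ENNReal.ofReal_mul (by norm_num)]
        congr 1
        ring

lemma diff_tendsto (ha : 0 < a) (ha1 : a ≤ 1) (hP : 1 ≤ P) (haP : a * P ≤ 1 / 2) :
    Tendsto (fun ε => ∫⁻ x in unitDisc, ‖ve a P ε x - wal a x‖ₑ) (𝓝[>] 0) (𝓝 0) := by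
  have h1 : Tendsto (fun ε : ℝ => ENNReal.ofReal (36 * a * P * ε)) (𝓝[>] 0) (𝓝 0) := by
    have h2 : Tendsto (fun ε : ℝ => 36 * a * P * ε) (𝓝 0) (𝓝 (36 * a * P * 0)) :=
      (continuous_const.mul continuous_id).tendsto 0
    rw [mul_zero] at h2
    have h3 := ENNReal.tendsto_ofReal (h2.mono_left (nhdsWithin_le_nhds (s := Ioi 0)))
    rwa [ENNReal.ofReal_zero] at h3
  refine tendsto_of_tendsto_of_tendsto_of_le_of_le' tendsto_const_nhds h1
    (Eventually.of_forall (fun _ => zero_le)) ?_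
  filter_upwards [self_mem_nhdsWithin] with ε hε
  exact diff_le ha ha1 hP haP hε

/-- passing to the limit in the weak formulations -/
lemma lim_int (ha : 0 < a) (ha1 : a ≤ 1) (hP : 1 ≤ P) (haP : a * P ≤ 1 / 2) (i k : Fin 2)
    {φ : Plane → ℝ} (h : IsTest unitDisc φ) :
    Tendsto (fun ε => ∫ x in unitDisc, ve a P ε x i * pd k φ x) (𝓝[>] 0)
      (𝓝 (∫ x in unitDisc, wal a x i * pd k φ x)) := by
  have := fin_disc
  obtain ⟨D, hD⟩ := pd_bdd h k
  have hP0 : 0 < P := by linarith
  have hD0 : 0 ≤ D := (abs_nonneg _).trans (hD 0)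
  have hw := (wal_meas (a := a)).aestronglyMeasurable (μ := volume.restrict unitDisc)
  have h1 : ∀ ε : ℝ, 0 < ε → |(∫ x in unitDisc, ve a P ε x i * pd k φ x) -
      ∫ x in unitDisc, wal a x i * pd k φ x| ≤ 36 * a * P * ε * D := by
    intro ε hε
    have hm := (ve_cont ha.le hP hε).aestronglyMeasurable (μ := volume.restrict unitDisc)
    rw [← integral_sub (coord_int hm (fun x => ve_bound ha ha1 hP haP x) h i k)
      (coord_int hw (fun x => (wal_norm ha ha1 x).le) h i k), ← Real.norm_eq_abs]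
    have hi : Integrable (fun x => ‖ve a P ε x - wal a x‖) (volume.restrict unitDisc) := by
      apply Integrable.of_bound (hm.sub hw).norm 3
      refine Eventually.of_forall (fun x => ?_)
      rw [norm_norm, Pi.sub_apply]
      have h1 := ve_bound (ε := ε) ha ha1 hP haP x
      have h2 := wal_norm ha ha1 x
      have h3 := norm_sub_le (ve a P ε x) (wal a x)
      linarith
    calc ‖∫ x in unitDisc, (ve a P ε x i * pd k φ x - wal a x i * pd k φ x)‖
        ≤ ∫ x in unitDisc, ‖ve a P ε x - wal a x‖ * D := by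
          apply norm_integral_le_of_norm_le (hi.mul_const D)
          refine Eventually.of_forall (fun x => ?_)
          rw [← sub_mul, norm_mul, Real.norm_eq_abs, Real.norm_eq_abs]
          have h3 := coord_abs (ve a P ε x - wal a x) i
          rw [PiLp.sub_apply] at h3
          exact mul_le_mul h3 (hD x) (abs_nonneg _) (norm_nonneg _)
      _ = (∫ x in unitDisc, ‖ve a P ε x - wal a x‖) * D := integral_mul_const _ _
      _ ≤ 36 * a * P * ε * D := by
          apply mul_le_mul_of_nonneg_right _ hD0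
          rw [show ∫ x in unitDisc, ‖ve a P ε x - wal a x‖ =
              (∫⁻ x in unitDisc, ‖ve a P ε x - wal a x‖ₑ).toReal from
            integral_norm_eq_lintegral_enorm (hm.sub hw)]
          have h4 := diff_le ha ha1 hP haP hε
          have h5 := ENNReal.toReal_mono ENNReal.ofReal_ne_top h4
          rw [ENNReal.toReal_ofReal (by positivity)] at h5
          exact h5
  rw [tendsto_iff_norm_sub_tendsto_zero]
  have h2 : Tendsto (fun ε : ℝ => 36 * a * P * ε * D) (𝓝[>] 0) (𝓝 0) := by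
    have h2 : Tendsto (fun ε : ℝ => 36 * a * P * ε * D) (𝓝 0) (𝓝 (36 * a * P * 0 * D)) :=
      ((continuous_const.mul continuous_id).mul continuous_const).tendsto 0
    rw [mul_zero, zero_mul] at h2
    exact h2.mono_left nhdsWithin_le_nhds
  refine tendsto_of_tendsto_of_tendsto_of_le_of_le' tendsto_const_nhds h2
    (Eventually.of_forall (fun _ => norm_nonneg _)) ?_
  filter_upwards [self_mem_nhdsWithin] with ε hε
  rw [Real.norm_eq_abs]
  exact h1 ε hε

lemma wal_divFree (ha : 0 < a) (ha1 : a ≤ 1) (hP : 1 ≤ P) (haP : a * P ≤ 1 / 2) :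
    IsDivFree unitDisc (wal a) := by
  have := fin_disc
  intro φ h
  have hw := (wal_meas (a := a)).aestronglyMeasurable (μ := volume.restrict unitDisc)
  rw [integral_add (coord_int hw (fun x => (wal_norm ha ha1 x).le) h 0 0)
    (coord_int hw (fun x => (wal_norm ha ha1 x).le) h 1 1)]
  have h1 := (lim_int ha ha1 hP haP 0 0 h).add (lim_int ha ha1 hP haP 1 1 h)
  have h2 : (fun ε => (∫ x in unitDisc, ve a P ε x 0 * pd 0 φ x) +
      ∫ x in unitDisc, ve a P ε x 1 * pd 1 φ x) =ᶠ[𝓝[>] 0] fun _ => 0 := by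
    filter_upwards [self_mem_nhdsWithin] with ε hε
    have hε' : 0 < ε := hε
    have hm := (ve_cont ha.le hP hε').aestronglyMeasurable (μ := volume.restrict unitDisc)
    rw [← integral_add (coord_int hm (fun x => ve_bound ha ha1 hP haP x) h 0 0)
      (coord_int hm (fun x => ve_bound ha ha1 hP haP x) h 1 1)]
    exact divFree ha ha1 hP haP hε' φ h
  exact tendsto_nhds_unique (h1.congr' h2) tendsto_const_nhds |>.symm ▸ rfl

lemma GG_int (ha : 0 < a) (hP : 1 ≤ P) (hε : 0 < ε) (i k : Fin 2)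
    {φ : Plane → ℝ} (h1 : ∀ x, |φ x| ≤ 1) :
    |∫ x in unitDisc, GG a P ε i k x * φ x| ≤ 12 * a * P * MM a P := by
  have hP0 : 0 < P := by linarith
  have hM := MM_nonneg ha.le hP
  have h2 : ‖∫ x in unitDisc, GG a P ε i k x * φ x‖ₑ ≤ ENNReal.ofReal (12 * a * P * MM a P) := by
    refine (enorm_integral_le_lintegral_enorm _).trans ?_
    calc ∫⁻ x in unitDisc, ‖GG a P ε i k x * φ x‖ₑ
        ≤ ∫⁻ x in unitDisc, (strip (3 * a * P * ε)).indicator (fun _ => ENNReal.ofReal (MM a P / ε)) x := by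
          apply lintegral_mono
          intro x
          by_cases hx : x ∈ strip (3 * a * P * ε)
          · simp only [indicator_of_mem hx]
            rw [← ofReal_norm]
            apply ENNReal.ofReal_le_ofReal
            rw [norm_mul, Real.norm_eq_abs, Real.norm_eq_abs]
            have h3 := GG_abs ha.le hP hε i k x
            calc |GG a P ε i k x| * |φ x| ≤ MM a P / ε * 1 :=
                  mul_le_mul h3 (h1 x) (abs_nonneg _) ((abs_nonneg _).trans h3)
              _ = _ := mul_one _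
          · have hx' : 3 * a * P * ε < |x 0| := by
              have : ¬ |x 0| ≤ 3 * a * P * ε := hx
              push Not at this
              exact this
            simp only [indicator_of_notMem hx]
            rw [GG_outer ha hP hε hx' i k]
            simp
      _ = ENNReal.ofReal (MM a P / ε) * volume (strip (3 * a * P * ε) ∩ unitDisc) := by
          rw [lintegral_indicator_const (strip_meas _), Measure.restrict_apply (strip_meas _)]
      _ ≤ ENNReal.ofReal (MM a P / ε) * ENNReal.ofReal (4 * (3 * a * P * ε)) := by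
          gcongr
          exact vol_strip (by positivity)
      _ = _ := by
          rw [← ENNReal.ofReal_mul (by positivity)]
          congr 1
          field_simp
          ring
  rw [← ofReal_norm, Real.norm_eq_abs] at h2
  exact (ENNReal.ofReal_le_ofReal_iff (by positivity)).1 h2

lemma wal_BV (ha : 0 < a) (ha1 : a ≤ 1) (hP : 1 ≤ P) (haP : a * P ≤ 1 / 2) :
    IsBV unitDisc (wal a) := by
  have := fin_disc
  refine ⟨?_, 12 * a * P * MM a P, ?_⟩
  · have hw := (wal_meas (a := a)).aestronglyMeasurable (μ := volume.restrict unitDisc)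
    exact Integrable.of_bound hw 1 (Eventually.of_forall (fun x => (wal_norm ha ha1 x).le))
  · intro i k φ h h1
    have h2 := (lim_int ha ha1 hP haP i k h).abs
    apply le_of_tendsto h2
    filter_upwards [self_mem_nhdsWithin] with ε hε
    have hε' : 0 < ε := hε
    rw [ibp ha.le hP hε' i k h, abs_neg]
    exact GG_int ha hP hε' i k h1

lemma halfBall_pos {x ν : Plane} (hν : ‖ν‖ = 1) {r : ℝ} (hr : 0 < r) :
    volume (halfBall x ν r) ≠ 0 := by
  have ho : IsOpen (halfBall x ν r) := by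
    unfold halfBall
    have : Continuous (fun y : Plane => inner ℝ (y - x) ν) := by fun_prop
    exact Metric.isOpen_ball.inter (isOpen_lt continuous_const this)
  apply (ho.measure_pos volume ⟨x + (r / 2) • ν, ?_⟩).ne'
  refine ⟨?_, ?_⟩
  · rw [Metric.mem_ball, dist_eq_norm, add_sub_cancel_left, norm_smul, hν, Real.norm_eq_abs,
      abs_of_pos (by linarith)]
    linarith
  · rw [add_sub_cancel_left, inner_smul_left, real_inner_self_eq_norm_sq, hν]
    simp
    exact hr

lemma halfBall_fin (x ν : Plane) (r : ℝ) : volume (halfBall x ν r) ≠ ∞ := by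
  apply ne_top_of_le_ne_top (measure_ball_lt_top (μ := (volume : Measure Plane)) (x := x) (r := r)).ne
  exact measure_mono (fun y hy => hy.1)

lemma halfBall_meas (x ν : Plane) (r : ℝ) : MeasurableSet (halfBall x ν r) := by
  have ho : IsOpen (halfBall x ν r) := by
    unfold halfBall
    have : Continuous (fun y : Plane => inner ℝ (y - x) ν) := by fun_prop
    exact Metric.isOpen_ball.inter (isOpen_lt continuous_const this)
  exact ho.measurableSet

/-- values of averages for fields which are constant near the point on the half ball -/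
lemma avg_const {u : Plane → Plane} {x ν c b : Plane} (hν : ‖ν‖ = 1) {r₀ : ℝ} (hr₀ : 0 < r₀)
    (h : ∀ y ∈ halfBall x ν r₀, u y = c) :
    Tendsto (fun r : ℝ => ⨍⁻ y in halfBall x ν r, ‖u y - b‖ₑ ∂volume) (𝓝[>] 0) (𝓝 ‖c - b‖ₑ) := by
  have h1 : (fun _ : ℝ => ‖c - b‖ₑ) =ᶠ[𝓝[>] 0] fun r : ℝ => ⨍⁻ y in halfBall x ν r, ‖u y - b‖ₑ ∂volume := by
    have h2 : ∀ᶠ r : ℝ in 𝓝[>] 0, r < r₀ := (eventually_lt_nhds hr₀).filter_mono nhdsWithin_le_nhds
    filter_upwards [h2, self_mem_nhdsWithin] with r hr hr1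
    have hr' : 0 < r := hr1
    have h3 : ∫⁻ y in halfBall x ν r, ‖u y - b‖ₑ = ∫⁻ y in halfBall x ν r, ‖c - b‖ₑ := by
      apply setLIntegral_congr_fun (halfBall_meas x ν r)
      intro y hy
      have : y ∈ halfBall x ν r₀ := ⟨Metric.ball_subset_ball hr.le hy.1, hy.2⟩
      simp only
      rw [h y this]
    rw [setLAverage_eq, h3, setLIntegral_const, mul_div_assoc,
      ENNReal.div_self (halfBall_pos hν hr') (halfBall_fin x ν r), mul_one]
  exact tendsto_const_nhds.congr' h1

lemma not_jump {x : Plane} (hx : x 0 ≠ 0) : ¬ ∃ b c ν, IsJump (wal a) x b c ν := by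
  rintro ⟨b, c, ν, hbc, hν, h1, h2⟩
  have h := wal_locconst (a := a) hx
  rw [Metric.eventually_nhds_iff_ball] at h
  obtain ⟨r₀, hr₀, h⟩ := h
  have h3 := avg_const (u := wal a) (b := b) hν hr₀ (c := wal a x) (fun y hy => h y hy.1)
  have h4 := avg_const (u := wal a) (b := c) (show ‖-ν‖ = 1 by rw [norm_neg, hν]) hr₀ (c := wal a x)
    (fun y hy => h y hy.1)
  have h5 := tendsto_nhds_unique h1 h3
  have h6 := tendsto_nhds_unique h2 h4
  have h7 : wal a x = b := by
    rw [eq_comm, enorm_eq_zero, sub_eq_zero] at h5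
    exact h5
  have h8 : wal a x = c := by
    rw [eq_comm, enorm_eq_zero, sub_eq_zero] at h6
    exact h6
  exact hbc (h7.symm.trans h8)

lemma is_jump (ha : 0 < a) {x : Plane} (hx : x 0 = 0) :
    IsJump (wal a) x !₂[√(1 - a ^ 2), a] !₂[√(1 - a ^ 2), -a] (EuclideanSpace.single 0 (1:ℝ)) := by
  have hν : ‖(EuclideanSpace.single 0 (1:ℝ) : Plane)‖ = 1 := by simp
  refine ⟨?_, hν, ?_, ?_⟩
  · intro h
    have h1 := congrArg (fun y : Plane => y 1) h
    simp at h1
    linarith
  · have h := avg_const (u := wal a) (x := x) (b := !₂[√(1 - a ^ 2), a]) hν one_pos (c := !₂[√(1 - a ^ 2), a]) ?_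
    · simpa using h
    · intro y hy
      have h1 : 0 < y 0 := by
        have := hy.2
        simp [EuclideanSpace.inner_single_right] at this
        linarith
      unfold wal
      rw [if_pos h1]
  · have h := avg_const (u := wal a) (x := x) (b := !₂[√(1 - a ^ 2), -a]) (show ‖-(EuclideanSpace.single 0 (1:ℝ) : Plane)‖ = 1 by rw [norm_neg, hν]) one_pos (c := !₂[√(1 - a ^ 2), -a]) ?_
    · simpa using h
    · intro y hy
      have h1 : ¬ 0 < y 0 := by
        have := hy.2
        simp [EuclideanSpace.inner_single_right] at this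
        linarith
      unfold wal
      rw [if_neg h1]

lemma jumpSet_eq (ha : 0 < a) : jumpSet unitDisc (wal a) = seg := by
  ext x
  constructor
  · rintro ⟨h1, h2⟩
    refine ⟨h1, ?_⟩
    by_contra h
    exact not_jump h h2
  · rintro ⟨h1, h2⟩
    exact ⟨h1, _, _, _, is_jump ha h2⟩

end

/-- For every `p ∈ (0,1)` and every `θ > 0` there is a wall in the unit disc and divergence-free
`H¹` fields converging to it whose energies stay strictly below `θ` times the integral of the
one-dimensional wall cost. -/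
theorem result (p : ℝ) (hp : 0 < p) (hp1 : p < 1) (θ : ℝ) (hθ : 0 < θ) :
    ∃ (u up um ν : Plane → Plane) (v : ℝ → Plane → Plane) (G : ℝ → Fin 2 → Fin 2 → Plane → ℝ),
      IsBV unitDisc u ∧ (∀ᵐ x ∂(volume.restrict unitDisc), ‖u x‖ = 1) ∧ IsDivFree unitDisc u ∧
      (∀ x ∈ jumpSet unitDisc u, IsJump u x (up x) (um x) (ν x)) ∧
      (∀ ε, 0 < ε → IsH1 unitDisc (v ε) (G ε) ∧ IsDivFree unitDisc (v ε)) ∧
      Tendsto (fun ε => ∫⁻ x in unitDisc, ‖v ε x - u x‖ₑ) (𝓝[>] 0) (𝓝 0) ∧
      limsup (fun ε => energy unitDisc p ε (v ε) (G ε)) (𝓝[>] 0) <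
        ENNReal.ofReal θ *
          ∫⁻ x in jumpSet unitDisc u, ENNReal.ofReal (wallCost p (inner ℝ (up x) (ν x))) ∂ μH[1] := by
  obtain ⟨a, P, ha, ha1, hP, haP, hlt⟩ := choice hp hp1 hθ
  have hP0 : 0 < P := by linarith
  refine ⟨wal a, fun _ => !₂[√(1 - a ^ 2), a], fun _ => !₂[√(1 - a ^ 2), -a],
    fun _ => EuclideanSpace.single 0 (1:ℝ), fun ε => ve a P ε, fun ε => GG a P ε,
    wal_BV ha ha1.le hP haP, Eventually.of_forall (fun x => wal_norm ha ha1.le x),
    wal_divFree ha ha1.le hP haP, ?_, ?_, diff_tendsto ha ha1.le hP haP, ?_⟩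
  · intro x hx
    rw [jumpSet_eq ha] at hx
    exact is_jump ha hx.2
  · intro ε hε
    exact ⟨isH1 ha ha1.le hP haP hε, divFree ha ha1.le hP haP hε⟩
  · have h1 : limsup (fun ε => energy unitDisc p ε (ve a P ε) (GG a P ε)) (𝓝[>] 0) ≤
        ENNReal.ofReal (12 * a * P * ((a ^ 4) ^ p + 4 * MM a P ^ 2) + 18 * a * (4 * P * a ^ 2) ^ p) := by
      apply limsup_le_of_le
      · isBoundedDefault
      · have h2 : ∀ᶠ ε : ℝ in 𝓝[>] 0, ε < 1 / (3 * P) :=
          (eventually_lt_nhds (by positivity)).filter_mono nhdsWithin_le_nhds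
        filter_upwards [h2, self_mem_nhdsWithin] with ε hε1 hε
        have hε' : 0 < ε := hε
        apply energy_le ha ha1.le hP haP hε' hp
        rw [lt_div_iff₀ (by positivity)] at hε1
        linarith
    refine h1.trans_lt ?_
    have hz : inner ℝ (!₂[√(1 - a ^ 2), a] : Plane) (EuclideanSpace.single 0 (1:ℝ)) = √(1 - a ^ 2) := by
      simp [EuclideanSpace.inner_single_right]
    rw [lintegral_const, Measure.restrict_apply_univ, jumpSet_eq ha, hz]
    have hK : 3 / 2 * (a * a ^ p) ≤ wallCost p √(1 - a ^ 2) := cost_ge hp hp1 ha ha1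
    have hS := seg_measure
    have hpos : 0 < a * a ^ p := by positivity
    calc ENNReal.ofReal (12 * a * P * ((a ^ 4) ^ p + 4 * MM a P ^ 2) + 18 * a * (4 * P * a ^ 2) ^ p)
        < ENNReal.ofReal (θ * (3 * (a * a ^ p))) :=
          (ENNReal.ofReal_lt_ofReal_iff (by positivity)).2 hlt
      _ = ENNReal.ofReal θ * (ENNReal.ofReal (3 / 2 * (a * a ^ p)) * 2) := by
          rw [show (2 : ℝ≥0∞) = ENNReal.ofReal 2 by norm_num, ← ENNReal.ofReal_mul (by positivity),
            ← ENNReal.ofReal_mul hθ.le]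
          congr 1
          ring
      _ ≤ ENNReal.ofReal θ * (ENNReal.ofReal (wallCost p √(1 - a ^ 2)) * μH[1] seg) := by
          gcongr

end Pool.Agent.Results.MP_fc6706_an.WallCostFails
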